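import Pool.Agent.helper62.VN.SpecG
import Pool.Agent.helper29.VQE.PCI

/-! # Row vne:GSQ (MP_07c750_an): square roots in the calculus of `CB` -/

set_option autoImplicit false

open scoped MatrixGroups ContDiff Topology UpperHalfPlane
open UpperHalfPlane MeasureTheory Filter Set

namespace Pool.Agent.VNE

open Pool.Agent.RS Pool.Agent.VQE

section aux

variable {V : Type} [NormedAddCommGroup V] [NormedSpace ℝ V] {s : Set V} {A a : ℝ} {G : V → ℝ}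

theorem GSQ_inv (ha : 0 < a) (hG : ∀ x ∈ s, a ≤ G x) {x : V} (hx : x ∈ s) :
    0 < Real.sqrt (G x) ∧ 0 < (Real.sqrt (G x))⁻¹ ∧ (Real.sqrt (G x))⁻¹ ≤ (Real.sqrt a)⁻¹ := by
  have h1 : 0 < Real.sqrt a := Real.sqrt_pos.2 ha
  have h2 : Real.sqrt a ≤ Real.sqrt (G x) := Real.sqrt_le_sqrt (hG x hx)
  have h3 : 0 < Real.sqrt (G x) := lt_of_lt_of_le h1 h2
  exact ⟨h3, inv_pos.2 h3, inv_anti₀ h1 h2⟩

theorem GSQ_sub (ha : 0 < a) (hG : ∀ x ∈ s, a ≤ G x) {x y : V} (hx : x ∈ s) (hy : y ∈ s) :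
    |Real.sqrt (G x) - Real.sqrt (G y)| ≤ (Real.sqrt a)⁻¹ / 2 * |G x - G y| := by
  obtain ⟨hx1, hx2, hx3⟩ := GSQ_inv ha hG hx
  obtain ⟨hy1, hy2, hy3⟩ := GSQ_inv ha hG hy
  have h1 : 0 < Real.sqrt a := Real.sqrt_pos.2 ha
  have h2 : Real.sqrt a ≤ Real.sqrt (G x) := Real.sqrt_le_sqrt (hG x hx)
  have h3 : Real.sqrt a ≤ Real.sqrt (G y) := Real.sqrt_le_sqrt (hG y hy)
  have e1 : Real.sqrt (G x) * Real.sqrt (G x) = G x := Real.mul_self_sqrt (ha.le.trans (hG x hx))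
  have e2 : Real.sqrt (G y) * Real.sqrt (G y) = G y := Real.mul_self_sqrt (ha.le.trans (hG y hy))
  have e3 : G x - G y = (Real.sqrt (G x) - Real.sqrt (G y)) * (Real.sqrt (G x) + Real.sqrt (G y)) := by
    rw [← e1, ← e2]
    ring_nf
    rw [Real.sqrt_sq hx1.le, Real.sqrt_sq hy1.le]
  rw [e3, abs_mul, abs_of_pos (add_pos hx1 hy1)]
  have h4 : 1 ≤ (Real.sqrt a)⁻¹ / 2 * (Real.sqrt (G x) + Real.sqrt (G y)) := by
    have h5 : (Real.sqrt a)⁻¹ / 2 * (Real.sqrt a + Real.sqrt a) = 1 := by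
      field_simp
      norm_num
    rw [← h5]
    exact mul_le_mul_of_nonneg_left (add_le_add h2 h3) (by positivity)
  calc |Real.sqrt (G x) - Real.sqrt (G y)| = |Real.sqrt (G x) - Real.sqrt (G y)| * 1 := (mul_one _).symm
    _ ≤ |Real.sqrt (G x) - Real.sqrt (G y)| * ((Real.sqrt a)⁻¹ / 2 * (Real.sqrt (G x) + Real.sqrt (G y))) := mul_le_mul_of_nonneg_left h4 (abs_nonneg _)
    _ = (Real.sqrt a)⁻¹ / 2 * (|Real.sqrt (G x) - Real.sqrt (G y)| * (Real.sqrt (G x) + Real.sqrt (G y))) := by ring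

theorem GSQ_invsub (ha : 0 < a) (hG : ∀ x ∈ s, a ≤ G x) {x y : V} (hx : x ∈ s) (hy : y ∈ s) :
    |(Real.sqrt (G x))⁻¹ - (Real.sqrt (G y))⁻¹| ≤ (Real.sqrt a)⁻¹ ^ 3 / 2 * |G x - G y| := by
  obtain ⟨hx1, hx2, hx3⟩ := GSQ_inv ha hG hx
  obtain ⟨hy1, hy2, hy3⟩ := GSQ_inv ha hG hy
  have h1 := GSQ_sub ha hG hx hy
  have hβ : 0 < (Real.sqrt a)⁻¹ := inv_pos.2 (Real.sqrt_pos.2 ha)
  have e : (Real.sqrt (G x))⁻¹ - (Real.sqrt (G y))⁻¹ = -((Real.sqrt (G x) - Real.sqrt (G y)) * ((Real.sqrt (G x))⁻¹ * (Real.sqrt (G y))⁻¹)) := by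
    have h2 := hx1.ne'
    have h3 := hy1.ne'
    field_simp
    ring
  rw [e, abs_neg, abs_mul, abs_of_pos (mul_pos hx2 hy2)]
  calc |Real.sqrt (G x) - Real.sqrt (G y)| * ((Real.sqrt (G x))⁻¹ * (Real.sqrt (G y))⁻¹)
      ≤ ((Real.sqrt a)⁻¹ / 2 * |G x - G y|) * ((Real.sqrt a)⁻¹ * (Real.sqrt a)⁻¹) :=
        mul_le_mul h1 (mul_le_mul hx3 hy3 hy2.le hβ.le) (mul_pos hx2 hy2).le (by positivity)
    _ = (Real.sqrt a)⁻¹ ^ 3 / 2 * |G x - G y| := by ring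

theorem GSQ_cube {x y b : ℝ} (hx : 0 ≤ x) (hy : 0 ≤ y) (hxb : x ≤ b) (hyb : y ≤ b) : |x ^ 3 - y ^ 3| ≤ 3 * b ^ 2 * |x - y| := by
  have e : x ^ 3 - y ^ 3 = (x ^ 2 + x * y + y ^ 2) * (x - y) := by ring
  have hb : 0 ≤ b := hx.trans hxb
  rw [e, abs_mul, abs_of_nonneg (by positivity)]
  refine mul_le_mul_of_nonneg_right ?_ (abs_nonneg _)
  nlinarith [mul_le_mul hxb hxb hx hb, mul_le_mul hyb hyb hy hb, mul_le_mul hxb hyb hy hb]

theorem GSQ_d1 (ha : 0 < a) (hG : CB s A G) (hGa : ∀ x ∈ s, a ≤ G x) {x : V} (hx : x ∈ s) :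
    HasFDerivAt (fun x => Real.sqrt (G x)) ((1 / 2 * (Real.sqrt (G x))⁻¹) • fderiv ℝ G x) x := by
  have h1 : HasFDerivAt G (fderiv ℝ G x) x := (hG.diff x hx).hasFDerivAt
  have h2 := h1.sqrt (by have := hGa x hx; intro h; linarith)
  have e : (1 / 2 * (Real.sqrt (G x))⁻¹ : ℝ) = 1 / (2 * Real.sqrt (G x)) := by
    rw [one_div, one_div, mul_inv]
  rw [e]
  exact h2

theorem GSQ_d2 (ha : 0 < a) (hG : CB s A G) (hGa : ∀ x ∈ s, a ≤ G x) {x : V} (hx : x ∈ s) :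
    HasFDerivAt (fun x => (Real.sqrt (G x))⁻¹) ((-(1 / 2) * (Real.sqrt (G x))⁻¹ ^ 3) • fderiv ℝ G x) x := by
  have h1 := GSQ_d1 ha hG hGa hx
  have h0 := (GSQ_inv ha hGa hx).1
  have h2 : HasDerivAt (fun u : ℝ => u⁻¹) (-((Real.sqrt (G x)) ^ 2)⁻¹) (Real.sqrt (G x)) := hasDerivAt_inv h0.ne'
  have h3 := h2.comp_hasFDerivAt x h1
  have e : (-(1 / 2) * (Real.sqrt (G x))⁻¹ ^ 3) • fderiv ℝ G x =
      (-((Real.sqrt (G x)) ^ 2)⁻¹) • ((1 / 2 * (Real.sqrt (G x))⁻¹) • fderiv ℝ G x) := by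
    rw [smul_smul]
    congr 1
    rw [← inv_pow]
    ring
  rw [e]
  exact h3

end aux

theorem GSQ_proof : GSQ_stmt := by
  intro A a hA ha
  set β : ℝ := (Real.sqrt a)⁻¹ with hβ
  have hβ0 : 0 < β := inv_pos.2 (Real.sqrt_pos.2 ha)
  refine ⟨1 + A + β + β * A + β ^ 3 * A ^ 2 + β ^ 3 * A + β ^ 5 * A ^ 2, ?_, ?_⟩
  · have : 0 ≤ A + β + β * A + β ^ 3 * A ^ 2 + β ^ 3 * A + β ^ 5 * A ^ 2 := by positivity
    linarith
  intro V _ _ s G hs hG hGa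
  have p1 : 0 ≤ β * A := by positivity
  have p2 : 0 ≤ β ^ 3 * A ^ 2 := by positivity
  have p3 : 0 ≤ β ^ 3 * A := by positivity
  have p4 : 0 ≤ β ^ 5 * A ^ 2 := by positivity
  constructor
  · have hf : ∀ x ∈ s, fderiv ℝ (fun x => Real.sqrt (G x)) x = (1 / 2 * (Real.sqrt (G x))⁻¹) • fderiv ℝ G x := fun x hx =>
      (GSQ_d1 ha hG hGa hx).fderiv
    have hc0 : ∀ x ∈ s, |1 / 2 * (Real.sqrt (G x))⁻¹| ≤ β / 2 := by
      intro x hx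
      obtain ⟨h1, h2, h3⟩ := GSQ_inv ha hGa hx
      rw [abs_of_nonneg (by positivity)]
      linarith
    have hc1 : ∀ x ∈ s, ∀ y ∈ s, |1 / 2 * (Real.sqrt (G x))⁻¹ - 1 / 2 * (Real.sqrt (G y))⁻¹| ≤ β ^ 3 / 4 * |G x - G y| := by
      intro x hx y hy
      have h := GSQ_invsub ha hGa hx hy
      rw [← mul_sub, abs_mul, abs_of_pos (by norm_num : (0 : ℝ) < 1 / 2)]
      linarith
    refine ⟨fun x hx => (GSQ_d1 ha hG hGa hx).differentiableAt, fun x hx => ?_, fun x hx => ?_, fun x hx y hy => ?_⟩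
    · rw [Real.norm_eq_abs, abs_of_nonneg (Real.sqrt_nonneg _)]
      have h1 : G x ≤ A := (le_abs_self _).trans (hG.b0 x hx)
      have h2 : Real.sqrt (G x) ≤ 1 + A := by
        rw [Real.sqrt_le_iff]
        constructor
        · linarith
        · nlinarith
      linarith
    · rw [hf x hx, norm_smul, Real.norm_eq_abs]
      have h1 := mul_le_mul (hc0 x hx) (hG.b1 x hx) (norm_nonneg _) (by positivity)
      linarith
    · rw [hf x hx, hf y hy]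
      have h1 := PCI_smul hs hA hG (fun x => 1 / 2 * (Real.sqrt (G x))⁻¹) (β / 2) (β ^ 3 / 4) (by positivity) hc0 hc1 hx hy
      refine h1.trans (mul_le_mul_of_nonneg_right ?_ (norm_nonneg _))
      nlinarith
  · have hf : ∀ x ∈ s, fderiv ℝ (fun x => (Real.sqrt (G x))⁻¹) x = (-(1 / 2) * (Real.sqrt (G x))⁻¹ ^ 3) • fderiv ℝ G x := fun x hx =>
      (GSQ_d2 ha hG hGa hx).fderiv
    have hc0 : ∀ x ∈ s, |-(1 / 2) * (Real.sqrt (G x))⁻¹ ^ 3| ≤ β ^ 3 / 2 := by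
      intro x hx
      obtain ⟨h1, h2, h3⟩ := GSQ_inv ha hGa hx
      rw [neg_mul, abs_neg, abs_of_nonneg (by positivity)]
      have h4 := pow_le_pow_left₀ h2.le h3 3
      linarith
    have hc1 : ∀ x ∈ s, ∀ y ∈ s, |-(1 / 2) * (Real.sqrt (G x))⁻¹ ^ 3 - -(1 / 2) * (Real.sqrt (G y))⁻¹ ^ 3| ≤ 3 / 4 * β ^ 5 * |G x - G y| := by
      intro x hx y hy
      obtain ⟨hx1, hx2, hx3⟩ := GSQ_inv ha hGa hx
      obtain ⟨hy1, hy2, hy3⟩ := GSQ_inv ha hGa hy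
      have h := GSQ_invsub ha hGa hx hy
      have h4 := GSQ_cube hx2.le hy2.le hx3 hy3
      rw [← mul_sub, abs_mul, abs_neg, abs_of_pos (by norm_num : (0 : ℝ) < 1 / 2)]
      have h5 : 3 * β ^ 2 * |(Real.sqrt (G x))⁻¹ - (Real.sqrt (G y))⁻¹| ≤ 3 * β ^ 2 * (β ^ 3 / 2 * |G x - G y|) :=
        mul_le_mul_of_nonneg_left h (by positivity)
      have e : 3 * β ^ 2 * (β ^ 3 / 2 * |G x - G y|) = 2 * (3 / 4 * β ^ 5 * |G x - G y|) := by ring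
      linarith
    refine ⟨fun x hx => (GSQ_d2 ha hG hGa hx).differentiableAt, fun x hx => ?_, fun x hx => ?_, fun x hx y hy => ?_⟩
    · obtain ⟨hx1, hx2, hx3⟩ := GSQ_inv ha hGa hx
      rw [Real.norm_eq_abs, abs_of_pos hx2]
      linarith
    · rw [hf x hx, norm_smul, Real.norm_eq_abs]
      have h1 := mul_le_mul (hc0 x hx) (hG.b1 x hx) (norm_nonneg _) (by positivity)
      linarith
    · rw [hf x hx, hf y hy]
      have h1 := PCI_smul hs hA hG (fun x => -(1 / 2) * (Real.sqrt (G x))⁻¹ ^ 3) (β ^ 3 / 2) (3 / 4 * β ^ 5) (by positivity) hc0 hc1 hx hy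
      refine h1.trans (mul_le_mul_of_nonneg_right ?_ (norm_nonneg _))
      nlinarith

end Pool.Agent.VNE
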