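import Pool.Agent.helper62.VN.SpecE
import Pool.Agent.helper27.VQE.SME

/-! # Row vne:NDM (MP_07c750_an): decomposition -/

set_option autoImplicit false

open scoped MatrixGroups ContDiff Topology UpperHalfPlane
open UpperHalfPlane MeasureTheory Filter Set

namespace Pool.Agent.VNE

open Pool.Agent.RS Pool.Agent.VQE

noncomputable section

theorem NDM_err {s p q A0 A1 A2 A3 B0 B1 B2 B3 E0 E3 K C1 C2 x e : ℝ} (hx : |s| ≤ x)
    (h0 : |A0 - 1 + s * (p / 2)| ≤ C1 * x ^ 2) (h1 : |A1 - s * q| ≤ C1 * x ^ 2) (h2 : |A2 + s * q| ≤ C1 * x ^ 2) (h3 : |A3 - 1 - s * (p / 2)| ≤ C1 * x ^ 2)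
    (g0 : |B0 - 1| ≤ 2 * e) (g1 : |B1| ≤ 2 * e) (g2 : |B2| ≤ 2 * e) (g3 : |B3 - 1| ≤ 2 * e) (he : e ≤ 1 / 2)
    (k0 : |B0 - E0| ≤ C2 * x * e) (k3 : |B3 - E3| ≤ C2 * x * e) (hp : |p| ≤ K) (hq : |q| ≤ K) :
    |(A0 * B0 + A1 * B2 - (A2 * B1 + A3 * B3)) - (E0 - E3) + s * p| ≤ 2 * (C2 * x * e) + 6 * (K * x * e) + 6 * (C1 * x ^ 2) := by
  have hx0 : 0 ≤ x := (abs_nonneg s).trans hx
  have hCx : 0 ≤ C1 * x ^ 2 := (abs_nonneg _).trans h0
  have he0 : 0 ≤ e := by linarith [(abs_nonneg _).trans g1]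
  have hB0 : |B0| ≤ 2 := by
    have h := abs_le.1 g0
    rw [abs_le]
    constructor <;> linarith [h.1, h.2]
  have hB3 : |B3| ≤ 2 := by
    have h := abs_le.1 g3
    rw [abs_le]
    constructor <;> linarith [h.1, h.2]
  have hs : |B0 - 1 + (B3 - 1)| ≤ 4 * e := by
    have h := abs_le.1 g0
    have h' := abs_le.1 g3
    rw [abs_le]
    constructor <;> linarith [h.1, h.2, h'.1, h'.2]
  have hs' : |B2 + B1| ≤ 4 * e := by
    have h := abs_le.1 g1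
    have h' := abs_le.1 g2
    rw [abs_le]
    constructor <;> linarith [h.1, h.2, h'.1, h'.2]
  have hsp : |s * (p / 2)| ≤ x * (K / 2) := SME_m hx (by
    have h := abs_le.1 hp
    rw [abs_le]
    constructor <;> linarith [h.1, h.2])
  have hsq : |s * q| ≤ x * K := SME_m hx hq
  have m1 := abs_le.1 (SME_m hsp hs)
  have m2 := abs_le.1 (SME_m h0 hB0)
  have m3 := abs_le.1 (SME_m h3 hB3)
  have m4 := abs_le.1 (SME_m hsq hs')
  have m5 := abs_le.1 (SME_m h1 g2)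
  have m6 := abs_le.1 (SME_m h2 g1)
  have n1 := abs_le.1 k0
  have n2 := abs_le.1 k3
  have hCe : C1 * x ^ 2 * (2 * e) ≤ C1 * x ^ 2 := by nlinarith
  have e1 : (A0 * B0 + A1 * B2 - (A2 * B1 + A3 * B3)) - (E0 - E3) + s * p = (B0 - E0) - (B3 - E3) - s * (p / 2) * (B0 - 1 + (B3 - 1)) +
      (A0 - 1 + s * (p / 2)) * B0 - (A3 - 1 - s * (p / 2)) * B3 + s * q * (B2 + B1) + (A1 - s * q) * B2 - (A2 + s * q) * B1 := by ring
  rw [e1, abs_le]
  constructor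
  · linarith [m1.2, m2.1, m3.2, m4.1, m5.1, m6.2, n1.1, n2.2]
  · linarith [m1.1, m2.2, m3.1, m4.2, m5.2, m6.1, n1.2, n2.1]

theorem NDM_proof (h1 : VQE.NMB_stmt) (h2 : NCH_stmt) (h3 : NSM_stmt) (h4 : NSD_stmt) : NDM_stmt := by
  intro K hK
  obtain ⟨C4, hC4, h2⟩ := h2 K hK
  obtain ⟨C1, hC1, h3⟩ := h3 K hK
  obtain ⟨C2, hC2, h4⟩ := h4 K hK
  obtain ⟨n0, -, -, -, -, nmul, -, -, -⟩ := h1
  have hK0 : 0 < K := by linarith
  set C3 : ℝ := 8 * (K * C2) + 24 * K ^ 2 + 96 * (C1 * K ^ 2) with hC3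
  set C : ℝ := C3 + 4 * K * C1 + 4 * K * C2 + 20 * (K * C1 * C4) + 20 * (K * C1) + 1 with hC
  have a0 : 0 ≤ C3 := by positivity
  have a1 : 0 ≤ 4 * K * C1 := by positivity
  have a2 : 0 ≤ 4 * K * C2 := by positivity
  have a3 : 0 ≤ 20 * (K * C1 * C4) := by positivity
  have a4 : 0 ≤ 20 * (K * C1) := by positivity
  have hCpos : 0 < C := by linarith
  have hKC1 : K ≤ K * C1 := by nlinarith
  have hKC2 : K ≤ K * C2 := by nlinarith
  have hC1K : C1 ≤ K * C1 := by nlinarith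
  have hC2K : C2 ≤ K * C2 := by nlinarith
  refine ⟨C, by linarith, fun X g E hX hE => ?_⟩
  set e : ℝ := nm E with he
  have he0 : 0 ≤ e := n0 E
  have heC : e * C ≤ 1 := by
    rwa [le_div_iff₀ hCpos] at hE
  have hsmall : ∀ c : ℝ, c ≤ C → e * c ≤ 1 := fun c hc => (mul_le_mul_of_nonneg_left hc he0).trans heC
  have b1 := hsmall (4 * K * C1) (by linarith)
  have b2 := hsmall (4 * K * C2) (by linarith)
  have b3 := hsmall (20 * (K * C1)) (by linarith)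
  have b4 := hsmall C3 (by linarith)
  have he20 : 20 * e ≤ 1 := by nlinarith
  have hE2 : e ≤ 1 / C2 := by
    rw [le_div_iff₀ (by linarith)]
    nlinarith
  have hpK : |X.p g| ≤ K := by
    have h5 := hX.pb g
    have h6 : 0 ≤ 1 / K := by positivity
    rw [abs_of_nonneg (h6.trans h5.1)]
    exact h5.2
  have hqK := (hX.qb g).1
  -- the two factors
  have hD : ∀ s : ℝ, g⁻¹ * X.f (-s) (g * E) = (g⁻¹ * X.f (-s) g) * ((X.f (-s) g)⁻¹ * X.f (-s) (g * E)) := by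
    intro s
    group
  have hA0 : g⁻¹ * X.f 0 g = 1 := by rw [hX.flw.zero, inv_mul_cancel]
  have hfac : ∀ s : ℝ, |s| ≤ 4 * K * e → C1 * |s| ≤ 1 ∧ nm (g⁻¹ * X.f (-s) g) ≤ C1 * |s| ∧
      (∀ i j, |(g⁻¹ * X.f (-s) g).1 i j - (1 : SL(2, ℝ)).1 i j + s * Xm X g i j| ≤ C1 * |s| ^ 2) ∧
      (∀ i j, |((X.f (-s) g)⁻¹ * X.f (-s) (g * E)).1 i j - E.1 i j| ≤ C2 * |s| * e) := by
    intro s hs
    have hs1 : |s| * C1 ≤ 1 := by
      calc |s| * C1 ≤ 4 * K * e * C1 := mul_le_mul_of_nonneg_right hs (by linarith)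
        _ = e * (4 * K * C1) := by ring
        _ ≤ 1 := b1
    have hs2 : |s| * C2 ≤ 1 := by
      calc |s| * C2 ≤ 4 * K * e * C2 := mul_le_mul_of_nonneg_right hs (by linarith)
        _ = e * (4 * K * C2) := by ring
        _ ≤ 1 := b2
    have hs1' : |s| ≤ 1 / C1 := by rwa [le_div_iff₀ (by linarith)]
    have hs2' : |s| ≤ 1 / C2 := by rwa [le_div_iff₀ (by linarith)]
    have h5 := h3 X hX g |s| (-s) 0 hs1' (abs_neg s).le (by rw [abs_zero]; exact abs_nonneg _)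
    have h6 := h4 X hX g E (-s) (by rwa [abs_neg]) hE2
    refine ⟨by linarith, ?_, fun i j => ?_, fun i j => ?_⟩
    · have h7 := h5.1
      rwa [abs_neg] at h7
    · have h7 := h5.2 i j
      rw [hA0, sub_zero, abs_neg] at h7
      calc _ = |(g⁻¹ * X.f (-s) g).1 i j - (1 : SL(2, ℝ)).1 i j - -s * Xm X g i j| := by
            congr 1
            ring
        _ ≤ C1 * |s| * |s| := h7
        _ = C1 * |s| ^ 2 := by ring
    · have h7 := h6 i j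
      rwa [abs_neg] at h7
  have hEn := SME_nm E
  have hBb : ∀ s : ℝ, |s| ≤ 4 * K * e → nm ((X.f (-s) g)⁻¹ * X.f (-s) (g * E)) ≤ 2 * e := by
    intro s hs
    obtain ⟨-, -, -, h8⟩ := hfac s hs
    have hs2 : C2 * |s| ≤ 1 := by
      calc C2 * |s| ≤ C2 * (4 * K * e) := mul_le_mul_of_nonneg_left hs (by linarith)
        _ = e * (4 * K * C2) := by ring
        _ ≤ 1 := b2
    have h9 : C2 * |s| * e ≤ 1 * e := mul_le_mul_of_nonneg_right hs2 he0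
    have c00 := abs_le.1 (h8 0 0)
    have c01 := abs_le.1 (h8 0 1)
    have c10 := abs_le.1 (h8 1 0)
    have c11 := abs_le.1 (h8 1 1)
    have d00 := abs_le.1 hEn.1
    have d01 := abs_le.1 hEn.2.1
    have d10 := abs_le.1 hEn.2.2.1
    have d11 := abs_le.1 hEn.2.2.2
    unfold nm
    refine max_le (max_le ?_ ?_) (max_le ?_ ?_)
    · rw [abs_le]
      constructor <;> linarith [c00.1, c00.2, d00.1, d00.2]
    · rw [abs_le]
      constructor <;> linarith [c01.1, c01.2, d01.1, d01.2]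
    · rw [abs_le]
      constructor <;> linarith [c10.1, c10.2, d10.1, d10.2]
    · rw [abs_le]
      constructor <;> linarith [c11.1, c11.2, d11.1, d11.2]
  have hφ : ∀ s : ℝ, |s| ≤ 4 * K * e → |((g⁻¹ * X.f (-s) (g * E)).1 0 0 - (g⁻¹ * X.f (-s) (g * E)).1 1 1) - (E.1 0 0 - E.1 1 1) + s * X.p g| ≤ e := by
    intro s hs
    obtain ⟨h6, h7, h8, h9⟩ := hfac s hs
    have hB := SME_nm ((X.f (-s) g)⁻¹ * X.f (-s) (g * E))
    have hB2 := hBb s hs
    have c00 := h8 0 0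
    have c01 := h8 0 1
    have c10 := h8 1 0
    have c11 := h8 1 1
    have x00 : Xm X g 0 0 = X.p g / 2 := rfl
    have x01 : Xm X g 0 1 = -X.q g := rfl
    have x10 : Xm X g 1 0 = X.q g := rfl
    have x11 : Xm X g 1 1 = -(X.p g / 2) := rfl
    have i00 : (1 : SL(2, ℝ)).1 0 0 = 1 := rfl
    have i01 : (1 : SL(2, ℝ)).1 0 1 = 0 := rfl
    have i10 : (1 : SL(2, ℝ)).1 1 0 = 0 := rfl
    have i11 : (1 : SL(2, ℝ)).1 1 1 = 1 := rfl
    rw [x00, i00] at c00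
    rw [x01, i01, sub_zero, mul_neg, ← sub_eq_add_neg] at c01
    rw [x10, i10, sub_zero] at c10
    rw [x11, i11, mul_neg, ← sub_eq_add_neg] at c11
    have key := NDM_err (x := |s|) (K := K) le_rfl c00 c01 c10 c11 (hB.1.trans hB2) (hB.2.1.trans hB2) (hB.2.2.1.trans hB2) (hB.2.2.2.trans hB2)
      (by linarith) (h9 0 0) (h9 1 1) hpK hqK
    have e00 : (g⁻¹ * X.f (-s) (g * E)).1 0 0 = (g⁻¹ * X.f (-s) g).1 0 0 * ((X.f (-s) g)⁻¹ * X.f (-s) (g * E)).1 0 0 +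
        (g⁻¹ * X.f (-s) g).1 0 1 * ((X.f (-s) g)⁻¹ * X.f (-s) (g * E)).1 1 0 := by
      rw [hD s]
      show ((g⁻¹ * X.f (-s) g).1 * ((X.f (-s) g)⁻¹ * X.f (-s) (g * E)).1) 0 0 = _
      rw [Matrix.mul_apply, Fin.sum_univ_two]
    have e11 : (g⁻¹ * X.f (-s) (g * E)).1 1 1 = (g⁻¹ * X.f (-s) g).1 1 0 * ((X.f (-s) g)⁻¹ * X.f (-s) (g * E)).1 0 1 +
        (g⁻¹ * X.f (-s) g).1 1 1 * ((X.f (-s) g)⁻¹ * X.f (-s) (g * E)).1 1 1 := by
      rw [hD s]
      show ((g⁻¹ * X.f (-s) g).1 * ((X.f (-s) g)⁻¹ * X.f (-s) (g * E)).1) 1 1 = _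
      rw [Matrix.mul_apply, Fin.sum_univ_two]
    rw [e00, e11]
    refine key.trans ?_
    have hs0 := abs_nonneg s
    have t1 : C2 * |s| * e ≤ C2 * (4 * K * e) * e := mul_le_mul_of_nonneg_right (mul_le_mul_of_nonneg_left hs (by linarith)) he0
    have t2 : K * |s| * e ≤ K * (4 * K * e) * e := mul_le_mul_of_nonneg_right (mul_le_mul_of_nonneg_left hs hK0.le) he0
    have t3 : C1 * |s| ^ 2 ≤ C1 * (4 * K * e) ^ 2 := mul_le_mul_of_nonneg_left (pow_le_pow_left₀ hs0 hs 2) (by linarith)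
    calc 2 * (C2 * |s| * e) + 6 * (K * |s| * e) + 6 * (C1 * |s| ^ 2) ≤ 2 * (C2 * (4 * K * e) * e) + 6 * (K * (4 * K * e) * e) + 6 * (C1 * (4 * K * e) ^ 2) := by linarith
      _ = e * (e * C3) := by rw [hC3]; ring
      _ ≤ e * 1 := mul_le_mul_of_nonneg_left b4 he0
      _ = e := mul_one e
  -- the sign change
  have hcont : Continuous fun s : ℝ => (g⁻¹ * X.f (-s) (g * E)).1 0 0 - (g⁻¹ * X.f (-s) (g * E)).1 1 1 := by
    have hf : Continuous fun s : ℝ => g⁻¹ * X.f (-s) (g * E) :=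
      continuous_const.mul (hX.flw.cont.comp (continuous_neg.prodMk continuous_const))
    have hv : Continuous fun s : ℝ => (g⁻¹ * X.f (-s) (g * E)).1 := continuous_subtype_val.comp hf
    exact (hv.matrix_elem 0 0).sub (hv.matrix_elem 1 1)
  have hE00 := abs_le.1 hEn.1
  have hE11 := abs_le.1 hEn.2.2.2
  have hp1 : 1 ≤ K * X.p g := by
    have h5 := (hX.pb g).1
    rwa [div_le_iff₀ hK0, mul_comm] at h5
  have hKe : 0 ≤ 4 * K * e := by positivity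
  have hIVT : (0 : ℝ) ∈ (fun s : ℝ => (g⁻¹ * X.f (-s) (g * E)).1 0 0 - (g⁻¹ * X.f (-s) (g * E)).1 1 1) '' Icc (-(4 * K * e)) (4 * K * e) := by
    refine intermediate_value_Icc' (by linarith) hcont.continuousOn ⟨?_, ?_⟩
    · have h5 := (abs_le.1 (hφ (4 * K * e) (by rw [abs_of_nonneg hKe]))).2
      have h6 : 4 * K * e * X.p g = 4 * e * (K * X.p g) := by ring
      have h7 : 4 * e * 1 ≤ 4 * e * (K * X.p g) := mul_le_mul_of_nonneg_left hp1 (by linarith)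
      show (g⁻¹ * X.f (-(4 * K * e)) (g * E)).1 0 0 - (g⁻¹ * X.f (-(4 * K * e)) (g * E)).1 1 1 ≤ 0
      linarith [hE00.2, hE11.1]
    · have h5 := (abs_le.1 (hφ (-(4 * K * e)) (by rw [abs_neg, abs_of_nonneg hKe]))).1
      have h6 : -(4 * K * e) * X.p g = -(4 * e * (K * X.p g)) := by ring
      have h7 : 4 * e * 1 ≤ 4 * e * (K * X.p g) := mul_le_mul_of_nonneg_left hp1 (by linarith)
      show 0 ≤ (g⁻¹ * X.f (-(-(4 * K * e))) (g * E)).1 0 0 - (g⁻¹ * X.f (-(-(4 * K * e))) (g * E)).1 1 1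
      linarith [hE00.1, hE11.2]
  obtain ⟨s, hs, hs0⟩ := hIVT
  have hs' : |s| ≤ 4 * K * e := abs_le.2 hs
  set D : SL(2, ℝ) := g⁻¹ * X.f (-s) (g * E) with hDdef
  have hD01 : D.1 0 0 = D.1 1 1 := by
    have h5 : D.1 0 0 - D.1 1 1 = 0 := hs0
    linarith
  have hnD : nm D ≤ 10 * (K * C1) * e := by
    obtain ⟨h6, h7, -, -⟩ := hfac s hs'
    have h8 := hBb s hs'
    have h9 := nmul (g⁻¹ * X.f (-s) g) ((X.f (-s) g)⁻¹ * X.f (-s) (g * E))
    rw [← hD s] at h9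
    have h10 : nm (g⁻¹ * X.f (-s) g) * nm ((X.f (-s) g)⁻¹ * X.f (-s) (g * E)) ≤ 1 * (2 * e) :=
      mul_le_mul (h7.trans h6) h8 (n0 _) zero_le_one
    have h11 : C1 * |s| ≤ C1 * (4 * K * e) := mul_le_mul_of_nonneg_left hs' (by linarith)
    have h12 : e ≤ K * C1 * e := by nlinarith
    calc nm D ≤ nm (g⁻¹ * X.f (-s) g) + nm ((X.f (-s) g)⁻¹ * X.f (-s) (g * E)) + 2 * nm (g⁻¹ * X.f (-s) g) * nm ((X.f (-s) g)⁻¹ * X.f (-s) (g * E)) := h9
      _ ≤ C1 * (4 * K * e) + 2 * e + 2 * (1 * (2 * e)) := by linarith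
      _ = 4 * (K * C1 * e) + 6 * e := by ring
      _ ≤ 10 * (K * C1) * e := by linarith
  have hDn := SME_nm D
  have hhalf : 10 * (K * C1) * e ≤ 1 / 2 := by linarith
  have hD0 : 0 < D.1 0 0 := by
    have h5 := (abs_le.1 (hDn.1.trans (hnD.trans hhalf))).1
    linarith
  have hdet : D.1 0 0 * D.1 0 0 = 1 + D.1 0 1 * D.1 1 0 := by
    have h5 : D.1.det = 1 := D.2
    rw [Matrix.det_fin_two, ← hD01] at h5
    linarith
  have hpos : 0 ≤ 1 + D.1 0 1 * D.1 1 0 := by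
    rw [← hdet]
    positivity
  have hdg : dg (D.1 0 1) (D.1 1 0) = D := by
    unfold dg
    rw [dif_pos hpos]
    apply Subtype.ext
    have h5 : √(1 + D.1 0 1 * D.1 1 0) = D.1 0 0 := by
      rw [← hdet, Real.sqrt_mul_self hD0.le]
    show !![√(1 + D.1 0 1 * D.1 1 0), D.1 0 1; D.1 1 0, √(1 + D.1 0 1 * D.1 1 0)] = D.1
    rw [h5]
    ext i j
    fin_cases i <;> fin_cases j
    · rfl
    · rfl
    · rfl
    · exact hD01
  obtain ⟨-, hch, -⟩ := h2 X hX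
  obtain ⟨hb, hc, hJW⟩ := hch g (D.1 0 1) (D.1 1 0)
  refine ⟨s, -(X.p g * (D.1 0 1 + D.1 1 0)), (D.1 0 1 - D.1 1 0) - X.m g * (D.1 0 1 + D.1 1 0), ?_, ?_, ?_⟩
  · refine hs'.trans ?_
    rw [mul_comm (4 * K) e, mul_comm C e]
    refine mul_le_mul_of_nonneg_left ?_ he0
    nlinarith
  · refine hJW.trans ?_
    have h5 : |D.1 0 1| + |D.1 1 0| ≤ 20 * (K * C1) * e := by linarith [hDn.2.1, hDn.2.2.1]
    calc C4 * (|D.1 0 1| + |D.1 1 0|) ≤ C4 * (20 * (K * C1) * e) := mul_le_mul_of_nonneg_left h5 (by linarith)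
      _ = 20 * (K * C1 * C4) * e := by ring
      _ ≤ C * e := mul_le_mul_of_nonneg_right (by linarith) he0
  · unfold pj
    rw [hb, hc, hdg, hDdef, mul_inv_cancel_left, ← hX.flw.add, add_neg_cancel, hX.flw.zero]

end

end Pool.Agent.VNE
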