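import Pool.Agent.helper62.VN.SpecE
import Pool.Agent.helper27.VQE.SME

/-! # Row vne:NSD (MP_07c750_an): short times, differences (copy of VQE row SME, helper27) -/

set_option autoImplicit false

open scoped MatrixGroups ContDiff Topology UpperHalfPlane
open UpperHalfPlane MeasureTheory Filter Set

namespace Pool.Agent.VNE

open Pool.Agent.RS Pool.Agent.VQE

noncomputable section

theorem NSD_bound {a b c d P Q p q n K : ℝ} (hK : 0 ≤ K) (hn0 : 0 ≤ n) (hn1 : n ≤ 1)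
    (ha : |a - 1| ≤ n) (hb : |b| ≤ n) (hc : |c| ≤ n) (hd : |d - 1| ≤ n) (hp : |p| ≤ K) (hP : |P| ≤ K)
    (hq : |q| ≤ K) (hQ : |Q| ≤ K) (hPp : |P - p| ≤ K * n) (hQq : |Q - q| ≤ K * n) :
    |a * ((P - p) / 2) + b * Q + q * c| ≤ 5 * K * n ∧ |-(a * Q) - b * ((P + p) / 2) + q * d| ≤ 5 * K * n ∧
    |c * ((P + p) / 2) + d * Q - q * a| ≤ 5 * K * n ∧ |-(c * Q) - d * ((P - p) / 2) - q * b| ≤ 5 * K * n := by
  have hKn : 0 ≤ K * n := mul_nonneg hK hn0
  have ha2 : |a| ≤ 2 := by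
    have h1 := abs_le.1 ha
    rw [abs_le]
    constructor <;> linarith [h1.1, h1.2]
  have hd2 : |d| ≤ 2 := by
    have h1 := abs_le.1 hd
    rw [abs_le]
    constructor <;> linarith [h1.1, h1.2]
  have hda : |d - a| ≤ 2 * n := by
    have h1 := abs_le.1 ha
    have h2 := abs_le.1 hd
    rw [abs_le]
    constructor <;> linarith [h1.1, h1.2, h2.1, h2.2]
  have hPp2 : |(P + p) / 2| ≤ K := by
    have h1 := abs_le.1 hp
    have h2 := abs_le.1 hP
    rw [abs_le]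
    constructor <;> linarith [h1.1, h1.2, h2.1, h2.2]
  have hPm2 : |(P - p) / 2| ≤ K * n / 2 := by
    have h1 := abs_le.1 hPp
    rw [abs_le]
    constructor <;> linarith [h1.1, h1.2]
  have m1 := abs_le.1 (SME_m ha2 hPm2)
  have m2 := abs_le.1 (SME_m hb hQ)
  have m3 := abs_le.1 (SME_m hq hc)
  have m4 := abs_le.1 (SME_m ha2 hQq)
  have m5 := abs_le.1 (SME_m hb hPp2)
  have m6 := abs_le.1 (SME_m hq hda)
  have m7 := abs_le.1 (SME_m hc hPp2)
  have m8 := abs_le.1 (SME_m hd2 hQq)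
  have m9 := abs_le.1 (SME_m hc hQ)
  have m10 := abs_le.1 (SME_m hd2 hPm2)
  have m11 := abs_le.1 (SME_m hq hb)
  refine ⟨?_, ?_, ?_, ?_⟩
  · rw [abs_le]
    constructor <;> nlinarith [m1.1, m1.2, m2.1, m2.2, m3.1, m3.2]
  · have e : -(a * Q) - b * ((P + p) / 2) + q * d = -(a * (Q - q)) - b * ((P + p) / 2) + q * (d - a) := by ring
    rw [e, abs_le]
    constructor <;> nlinarith [m4.1, m4.2, m5.1, m5.2, m6.1, m6.2]
  · have e : c * ((P + p) / 2) + d * Q - q * a = c * ((P + p) / 2) + d * (Q - q) + q * (d - a) := by ring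
    rw [e, abs_le]
    constructor <;> nlinarith [m7.1, m7.2, m8.1, m8.2, m6.1, m6.2]
  · rw [abs_le]
    constructor <;> nlinarith [m9.1, m9.2, m10.1, m10.2, m11.1, m11.2]

theorem NSD_proof (h1 : VQE.NMB_stmt) (h2 : NGR_stmt) : NSD_stmt := by
  intro K hK
  obtain ⟨CG, hCG, h2⟩ := h2 K hK
  have hK0 : 0 ≤ K := by linarith
  have hKC : CG ≤ K * CG := by nlinarith
  refine ⟨15 * (K * CG), by linarith, fun X hX g E t ht hE => ?_⟩
  have n0 := h1.1
  have hCpos : 0 < 15 * (K * CG) := by linarith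
  have ht1 : CG * |t| ≤ 1 := by
    rw [le_div_iff₀ hCpos] at ht
    nlinarith [abs_nonneg t]
  have hE1 : 3 * CG * nm E ≤ 1 / 2 := by
    rw [le_div_iff₀ hCpos] at hE
    nlinarith [n0 E]
  have hn : ∀ s : ℝ, |s| ≤ |t| → nm ((X.f s g)⁻¹ * X.f s (g * E)) ≤ 3 * CG * nm E := by
    intro s hs
    have h3 := h2 X hX g E s
    have h4 : Real.exp (CG * |s|) ≤ 3 := by
      have h5 : CG * |s| ≤ 1 := (mul_le_mul_of_nonneg_left hs (by linarith)).trans ht1
      have h6 := Real.exp_le_exp.2 h5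
      have h7 := Real.exp_one_lt_d9
      linarith
    have h5 : CG * nm E * Real.exp (CG * |s|) ≤ CG * nm E * 3 :=
      mul_le_mul_of_nonneg_left h4 (mul_nonneg (by linarith) (n0 E))
    have h6 : min 1 (nm ((X.f s g)⁻¹ * X.f s (g * E))) ≤ 3 * CG * nm E := by linarith
    rcases le_total 1 (nm ((X.f s g)⁻¹ * X.f s (g * E))) with h7 | h7
    · rw [min_eq_left h7] at h6
      linarith
    · rwa [min_eq_right h7] at h6
  have hpK : ∀ x, |X.p x| ≤ K := fun x => by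
    have h3 := hX.pb x
    have h4 : 0 ≤ 1 / K := by positivity
    rw [abs_of_nonneg (h4.trans h3.1)]
    exact h3.2
  have hb : ∀ s : ℝ, |s| ≤ |t| → _ := fun s hs => NSD_bound (a := ((X.f s g)⁻¹ * X.f s (g * E)).1 0 0)
    (b := ((X.f s g)⁻¹ * X.f s (g * E)).1 0 1) (c := ((X.f s g)⁻¹ * X.f s (g * E)).1 1 0)
    (d := ((X.f s g)⁻¹ * X.f s (g * E)).1 1 1) (P := X.p (X.f s (g * E))) (Q := X.q (X.f s (g * E))) (p := X.p (X.f s g))
    (q := X.q (X.f s g)) (n := nm ((X.f s g)⁻¹ * X.f s (g * E))) hK0 (n0 _) ((hn s hs).trans (by linarith))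
    (SME_nm _).1 (SME_nm _).2.1 (SME_nm _).2.2.1 (SME_nm _).2.2.2 (hpK _) (hpK _) (hX.qb _).1 (hX.qb _).1
    (by
      have := (hX.lip (X.f s g) ((X.f s g)⁻¹ * X.f s (g * E))).1
      rwa [mul_inv_cancel_left] at this)
    (by
      have := (hX.lip (X.f s g) ((X.f s g)⁻¹ * X.f s (g * E))).2.1
      rwa [mul_inv_cancel_left] at this)
  have hz : (X.f 0 g)⁻¹ * X.f 0 (g * E) = E := by
    rw [hX.flw.zero, hX.flw.zero, inv_mul_cancel_left]
  have ho := fun s => SME_ode X.p X.q X.f hX.flw g (g * E) s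
  have hb2 : ∀ s : ℝ, |s| ≤ |t| → 5 * K * nm ((X.f s g)⁻¹ * X.f s (g * E)) ≤ 15 * (K * CG) * nm E := fun s hs => by
    have h3 := mul_le_mul_of_nonneg_left (hn s hs) (by linarith : (0 : ℝ) ≤ 5 * K)
    calc _ ≤ 5 * K * (3 * CG * nm E) := h3
      _ = 15 * (K * CG) * nm E := by ring
  have fin : ∀ x : ℝ, |x| ≤ 15 * (K * CG) * nm E * |t| → |x| ≤ 15 * (K * CG) * |t| * nm E := by
    intro x hx
    calc |x| ≤ 15 * (K * CG) * nm E * |t| := hx
      _ = 15 * (K * CG) * |t| * nm E := by ring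
  intro i j
  fin_cases i <;> fin_cases j
  · have h3 := SME_mv (fun s => ((X.f s g)⁻¹ * X.f s (g * E)).1 0 0) _ t (15 * (K * CG) * nm E) fun s hs =>
      ⟨(ho s).1, (hb s hs).1.trans (hb2 s hs)⟩
    simp only [hz] at h3
    exact fin _ h3
  · have h3 := SME_mv (fun s => ((X.f s g)⁻¹ * X.f s (g * E)).1 0 1) _ t (15 * (K * CG) * nm E) fun s hs =>
      ⟨(ho s).2.1, (hb s hs).2.1.trans (hb2 s hs)⟩
    simp only [hz] at h3
    exact fin _ h3
  · have h3 := SME_mv (fun s => ((X.f s g)⁻¹ * X.f s (g * E)).1 1 0) _ t (15 * (K * CG) * nm E) fun s hs =>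
      ⟨(ho s).2.2.1, (hb s hs).2.2.1.trans (hb2 s hs)⟩
    simp only [hz] at h3
    exact fin _ h3
  · have h3 := SME_mv (fun s => ((X.f s g)⁻¹ * X.f s (g * E)).1 1 1) _ t (15 * (K * CG) * nm E) fun s hs =>
      ⟨(ho s).2.2.2, (hb s hs).2.2.2.trans (hb2 s hs)⟩
    simp only [hz] at h3
    exact fin _ h3

end

end Pool.Agent.VNE
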